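import Pool.Agent.Q120.EQ.Main

/-! # MP_d26ff6_al: quaternionic structures with at most eighteen quaternions

Finite quaternionic structures with at most eighteen quaternions (which lie in a group of exponent
two in which `q` is additive) are of elementary type. -/

set_option autoImplicit false

namespace Pool.Agent.Results.MP_d26ff6_al.EighteenQuaternions

open Pool.Agent.H315R3.ETC

universe v

/-- **Main result**: a finite quaternionic structure with at most eighteen quaternions is of elementary
type. -/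
theorem result (S : QData) (hS : IsQuat S) (hfin : Finite S.G)
    -- the quaternions lie in a group `B` of exponent two in which `q` is additive
    {B : Type v} [AddCommGroup B] (hB : ∀ b : B, b + b = 0) (β : S.G → S.G → B)
    (hmul : ∀ a b c, β a (b * c) = β a b + β a c)
    (hq : ∀ a b c d, β a b = β c d ↔ S.q a b = S.q c d)
    -- at most eighteen quaternions
    (hcard : {t : S.Q | ∃ a b : S.G, S.q a b = t}.ncard ≤ 18) : Elem S := by
  classical
  have q1 : ∀ a, S.q a 1 = S.zero := by
    intro a
    have := (hS.qs3 a 1 1).1 rfl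
    rwa [mul_one] at this
  have b1 : ∀ a, β a 1 = 0 := by
    intro a
    have := hmul a 1 1
    rw [mul_one] at this
    exact left_eq_add.1 this
  have hz : ∀ a b, β a b = 0 ↔ S.q a b = S.zero := by
    intro a b
    rw [← b1 a, ← q1 a, hq]
  have hrows : Pool.Agent.Q120.EQ.Rows S.neg β :=
    { hB := hB
      exp := hS.exp2
      mul := hmul
      sym := fun a b => (hq _ _ _ _).2 (hS.qs2 a b)
      neg := fun a => (hz _ _).2 (hS.qs1 a)
      link := fun a b c d h => by
        obtain ⟨x, h1, h2⟩ := hS.qs4 a b c d ((hq _ _ _ _).1 h)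
        exact ⟨x, (hq _ _ _ _).2 h1, (hq _ _ _ _).2 h2⟩ }
  have hcard' : {t : B | ∃ a b : S.G, β a b = t}.ncard ≤ 18 := by
    refine le_trans ?_ hcard
    refine Set.ncard_le_ncard_of_injOn (fun t => if h : ∃ p : S.G × S.G, β p.1 p.2 = t then
      S.q h.choose.1 h.choose.2 else S.zero) ?_ ?_ ?_
    · rintro t ⟨a, b, hab⟩
      have h : ∃ p : S.G × S.G, β p.1 p.2 = t := ⟨(a, b), hab⟩
      show (if h : ∃ p : S.G × S.G, β p.1 p.2 = t then _ else _) ∈ _
      rw [dif_pos h]
      exact ⟨_, _, rfl⟩
    · rintro t ⟨a, b, hab⟩ t' ⟨a', b', hab'⟩ heq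
      have h : ∃ p : S.G × S.G, β p.1 p.2 = t := ⟨(a, b), hab⟩
      have h' : ∃ p : S.G × S.G, β p.1 p.2 = t' := ⟨(a', b'), hab'⟩
      change (if h : ∃ p : S.G × S.G, β p.1 p.2 = t then S.q h.choose.1 h.choose.2 else S.zero) =
        (if h : ∃ p : S.G × S.G, β p.1 p.2 = t' then S.q h.choose.1 h.choose.2 else S.zero) at heq
      rw [dif_pos h, dif_pos h', ← hq, h.choose_spec, h'.choose_spec] at heq
      exact heq
    · have : {t : S.Q | ∃ a b : S.G, S.q a b = t} =
          Set.range (fun p : S.G × S.G => S.q p.1 p.2) := by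
        ext t
        exact ⟨fun ⟨a, b, h⟩ => ⟨(a, b), h⟩, fun ⟨p, h⟩ => ⟨p.1, p.2, h⟩⟩
      rw [this]
      exact Set.finite_range _
  rcases hrows.main (hS.exp2 _) hcard' with h | ⟨C, hfC, hC, hall⟩
  · refine Pool.Agent.TH188.ETV.elem_of_small S hS hfin hB β hmul hq fun x y z => Or.inl fun p _ => ?_
    rw [← hrows.R_eq_Qs]
    exact h p
  · let β' : S.G → S.G → C := fun a b => ⟨β a b, hall a b⟩
    refine Pool.Agent.TH188.ETV.elem_of_small S hS hfin (B := C) (fun b => Subtype.ext (hB b)) β'
      (fun a b c => Subtype.ext (hmul a b c)) (fun a b c d => ?_) fun x y z =>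
        Pool.Agent.TH188.ETV.small_of_card (fun b => Subtype.ext (hB b)) hfC hC β' x y z
    rw [← hq]
    exact Subtype.ext_iff

end Pool.Agent.Results.MP_d26ff6_al.EighteenQuaternions
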