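import Pool.Agent.Q312.ET.Ret

/-!
# Elementary type is inherited by transfer retracts and by fixed structures of groups of odd order

Let `S`, `T` be finite quaternionic structures.  `T` is a transfer retract of `S` if there are
homomorphisms `ι : T → S` and `N : S → T` with `N ∘ ι = id` such that `q(a,b) = 0` in `T` implies
`q(ι a, ι b) = 0` in `S`, and `q(ι t, b) = 0` in `S` implies `q(t, N b) = 0` in `T` (the projection
formula).  For fields, `N` is a norm map of a finite extension of odd degree or a specialisation.
If `S` is of elementary type then so are all its transfer retracts.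

In particular, if a finite group `Γ` of odd order acts on `S`, then the fixed elements form a
quaternionic structure, and it is of elementary type if `S` is.

Proof.  By the criterion `SymbolExtension` of the starting files one has to extend symbols
`χ` from `W × T`, `W` a subgroup, to `T × T`.  By the projection formula `χ(w, N b)` is a symbol on
`ι(W) × S`; it extends to `S × S`, and the restriction of the extension to `T × T` extends `χ`.
-/

set_option autoImplicit false

namespace Pool.Agent.Results.MP_d26ff6_al.Retracts

open Pool.Agent.H315R3.ETC Pool.Agent.Q312.ET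

/-- `T` is a transfer retract of `S`. -/
def TransferRetract (S T : QData) : Prop :=
  ∃ (ι : T.G →* S.G) (N : S.G →* T.G), (∀ t, N (ι t) = t) ∧
    (∀ a b, T.q a b = T.zero → S.q (ι a) (ι b) = S.zero) ∧
    (∀ t b, S.q (ι t) b = S.zero → T.q t (N b) = T.zero)

theorem finite_of_elem {S : QData} (h : Elem S) : Finite S.G := by
  induction h with
  | l0 => exact inferInstanceAs (Finite Unit)
  | l10 => exact inferInstanceAs (Finite (ZMod 2))
  | l11 => exact inferInstanceAs (Finite (ZMod 2))
  | l1 => exact inferInstanceAs (Finite (ZMod 2))
  | loc S h => exact h.2.1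
  | prod S T _ _ h1 h2 =>
    have := h1
    have := h2
    exact inferInstanceAs (Finite (S.G × T.G))
  | ext S _ h1 =>
    have := h1
    have : Finite C2 := inferInstanceAs (Finite (ZMod 2))
    exact inferInstanceAs (Finite (S.G × C2))
  | iso S T _ hI ih =>
    obtain ⟨φ, _⟩ := hI
    have := ih
    exact Finite.of_equiv S.G φ.toEquiv

/-- **Transfer retracts and fixed structures.** -/
theorem result :
    -- transfer retracts of structures of elementary type are of elementary type
    (∀ S T : QData, IsQuat S → IsQuat T → TransferRetract S T → Elem S → Elem T) ∧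
    -- groups of odd order: the fixed structure is a quaternionic structure, and of elementary type
    -- if the given structure is
    (∀ S : QData, IsQuat S → ∀ (Γ : Type) [Group Γ] [Finite Γ] [MulDistribMulAction Γ S.G],
      Odd (Nat.card Γ) → ∀ hneg : ∀ γ : Γ, γ • S.neg = S.neg,
      (∀ (γ : Γ) (a b : S.G), S.q a b = S.zero → S.q (γ • a) (γ • b) = S.zero) →
      IsQuat (fix S Γ hneg) ∧ (Elem S → Elem (fix S Γ hneg))) := by
  refine ⟨?_, ?_⟩
  · rintro S T hS hT ⟨ι, N, hN, h1, h2⟩ hE
    have hSf := finite_of_elem hE
    have hTf : Finite T.G := Finite.of_injective ι fun a b hab => by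
      rw [← hN a, ← hN b, hab]
    exact elem_of_retract hS hT hTf hSf ι N hN h1 h2 hE
  · intro S hS Γ _ _ _ hodd hneg hact
    have := Fintype.ofFinite Γ
    rw [Nat.card_eq_fintype_card] at hodd
    exact ⟨isQuat_fix hS hodd hneg hact, fun hE =>
      elem_fix hS (finite_of_elem hE) hodd hneg hact hE⟩

end Pool.Agent.Results.MP_d26ff6_al.Retracts
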