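import Pool.Agent.Q327.ET.Rel

/-!
# MP_d26ff6_al: elementary type and relations between the symbols of a quaternionic structure

For a quaternionic structure `S = (G, -1, q)` let `k_2(S)` be the quotient of `G ⊗ G` by the
`a ⊗ b` with `q(a,b) = 0` (`K S`), and let `{a,b}` be the class of `a ⊗ b` (`sym S a b`). A finite
quaternionic structure is of elementary type if and only if every relation `∑ {a_i,b_i} = 0` comes from
common slots, and if and only if `{x,y} = ∑ {a_i,b_i}` implies that `y` is a product of elements of the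
value groups `V(x ∏_{i ∈ I} a_i)`, where `V(a) = {c : q(a,c) = 0}`.
-/

set_option autoImplicit false

namespace Pool.Agent.Results.MP_d26ff6_al.SlotRelations

open Pool.Agent.H315R3.ETC Pool.Agent.Q327.ET

/-- **Theorem.** A finite quaternionic structure `S` is of elementary type iff for all `n` and all
`a_i`, `b_i` with `∑_i {a_i,b_i} = 0` in `k_2(S)` there are `c_I ∈ V(∏_{i ∈ I} a_i)`, one for each set
`I ⊆ {1, …, n}`, such that `b_i = ∏_{I ∋ i} c_I` for all `i` (so that the relation is the sum of the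
trivial relations `{∏_{i ∈ I} a_i, c_I} = 0`); and iff for all `n` and all `a_i`, `b_i`, `x`, `y` with
`{x,y} = ∑_i {a_i,b_i}` there are `c_I ∈ V(x ∏_{i ∈ I} a_i)` with `y = ∏_I c_I`. -/
theorem result (S : QData) (hS : IsQuat S) (hfin : Finite S.G) :
    (Elem S ↔ ∀ (n : ℕ) (a b : Fin n → S.G), ∑ i, sym S (a i) (b i) = 0 →
      ∃ c : Finset (Fin n) → S.G, (∀ I, S.q (∏ i ∈ I, a i) (c I) = S.zero) ∧
        ∀ i, b i = ∏ I with i ∈ I, c I) ∧
    (Elem S ↔ ∀ (n : ℕ) (a b : Fin n → S.G) (x y : S.G), sym S x y = ∑ i, sym S (a i) (b i) →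
      ∃ c : Finset (Fin n) → S.G, (∀ I, S.q (x * ∏ i ∈ I, a i) (c I) = S.zero) ∧
        y = ∏ I, c I) := by
  have hcrit := Pool.Agent.Results.MP_d26ff6_al.SymbolExtension.result S hS hfin
  have h12 : Elem S → RelationsFromSlots S := fun h => relations_of_extend hS (hcrit.1.1 h)
  have h23 : RelationsFromSlots S → ∀ n, SlotsAt S n := fun h n => slots_of_relations hS h n
  have h31 : (∀ n, SlotsAt S n) → Elem S := fun h => hcrit.2.2 (extend_of_slots hS hfin h)
  exact ⟨⟨h12, fun h => h31 (h23 h)⟩, ⟨fun h => h23 (h12 h), h31⟩⟩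

end Pool.Agent.Results.MP_d26ff6_al.SlotRelations
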