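import Pool.Agent.Q327.ET.Rel

/-!
# MP_d26ff6_al: the elementary type conjecture is a statement on relations of three symbols

For a quaternionic structure `S = (G, -1, q)` let `k_2(S)` be the quotient of `G ⊗ G` by the
`a ⊗ b` with `q(a,b) = 0` (`K S`), and let `{a,b}` be the class of `a ⊗ b` (`sym S a b`). The elementary
type conjecture holds if and only if in every finite quaternionic structure `{x,y} = {a,b} + {c,d}`
implies `y ∈ V(x) V(xa) V(xc) V(xac)`, where `V(a) = {z : q(a,z) = 0}`. The same for the structures of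
bounded order, and for minimal counterexamples.
-/

set_option autoImplicit false

namespace Pool.Agent.Results.MP_d26ff6_al.ThreeSymbols

open Pool.Agent.H315R3.ETC Pool.Agent.Q327.ET
open Pool.Agent.Results.MP_d26ff6_al.SymbolExtension (IsSymbol)

/-- if `{x,y} = {a,b} + {c,d}` in `k_2(S)` then `y ∈ V(x) V(xa) V(xc) V(xac)` -/
def ThreeTerm (S : QData) : Prop :=
  ∀ x y a b c d : S.G, sym S x y = sym S a b + sym S c d →
    ∃ u v w z : S.G, S.q x u = S.zero ∧ S.q (x * a) v = S.zero ∧ S.q (x * c) w = S.zero ∧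
      S.q (x * a * c) z = S.zero ∧ y = u * v * w * z

theorem univ_two : (Finset.univ : Finset (Finset (Fin 2))) = {∅, {0}, {1}, {0, 1}} := by decide

theorem three_of_slots {S : QData} (h : SlotsAt S 2) : ThreeTerm S := by
  intro x y a b c d hxy
  obtain ⟨e, he, hy⟩ := h ![a, c] ![b, d] x y (by
    rw [hxy, Fin.sum_univ_two]
    rfl)
  refine ⟨e ∅, e {0}, e {1}, e {0, 1}, ?_, ?_, ?_, ?_, ?_⟩
  · have := he ∅
    simpa using this
  · have := he {0}
    simpa using this
  · have := he {1}
    simpa using this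
  · have := he {0, 1}
    rw [Finset.prod_pair (by decide)] at this
    simpa [mul_assoc] using this
  · rw [hy, univ_two, Finset.prod_insert (by decide), Finset.prod_insert (by decide),
      Finset.prod_insert (by decide), Finset.prod_singleton]
    simp only [mul_assoc]

theorem slots_of_three {S : QData} (h : ThreeTerm S) : SlotsAt S 2 := by
  intro a b x y hxy
  rw [Fin.sum_univ_two] at hxy
  obtain ⟨u, v, w, z, hu, hv, hw, hz, hy⟩ := h x y _ _ _ _ hxy
  have h01 : ({0} : Finset (Fin 2)) ≠ ∅ := by decide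
  have h02 : ({1} : Finset (Fin 2)) ≠ ∅ := by decide
  have h03 : ({0, 1} : Finset (Fin 2)) ≠ ∅ := by decide
  have h12 : ({1} : Finset (Fin 2)) ≠ {0} := by decide
  have h13 : ({0, 1} : Finset (Fin 2)) ≠ {0} := by decide
  have h23 : ({0, 1} : Finset (Fin 2)) ≠ {1} := by decide
  refine ⟨fun I => if I = ∅ then u else if I = {0} then v else if I = {1} then w else z, ?_, ?_⟩
  · intro I
    have hI : I ∈ (Finset.univ : Finset (Finset (Fin 2))) := Finset.mem_univ I
    rw [univ_two] at hI
    simp only [Finset.mem_insert, Finset.mem_singleton] at hI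
    rcases hI with rfl | rfl | rfl | rfl
    · simpa using hu
    · beta_reduce
      rw [if_neg h01, if_pos rfl, Finset.prod_singleton]
      exact hv
    · beta_reduce
      rw [if_neg h02, if_neg h12, if_pos rfl, Finset.prod_singleton]
      exact hw
    · beta_reduce
      rw [if_neg h03, if_neg h13, if_neg h23, Finset.prod_pair (by decide), ← mul_assoc]
      exact hz
  · rw [univ_two, Finset.prod_insert (by decide), Finset.prod_insert (by decide),
      Finset.prod_insert (by decide), Finset.prod_singleton, if_pos rfl, if_neg h01, if_pos rfl,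
      if_neg h02, if_neg h12, if_pos rfl, if_neg h03, if_neg h13, if_neg h23, hy]
    simp only [mul_assoc]

/-- a group with at most four elements of exponent two is generated by two elements -/
theorem two_gen {G : Type} [CommGroup G] (U : Subgroup G) (h2 : ∀ a : G, a * a = 1) [Finite U]
    (hU : Nat.card U ≤ 4) :
    ∃ u v : G, u ∈ U ∧ v ∈ U ∧ ∀ w ∈ U, w = 1 ∨ w = u ∨ w = v ∨ w = u * v := by
  classical
  by_cases h1 : ∀ w ∈ U, w = 1
  · exact ⟨1, 1, U.one_mem, U.one_mem, fun w hw => Or.inl (h1 w hw)⟩
  push Not at h1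
  obtain ⟨u, hu, hu1⟩ := h1
  by_cases h3 : ∀ w ∈ U, w = 1 ∨ w = u
  · refine ⟨u, 1, hu, U.one_mem, fun w hw => ?_⟩
    rcases h3 w hw with h | h
    · exact Or.inl h
    · exact Or.inr (Or.inl h)
  push Not at h3
  obtain ⟨v, hv, hv1, hvu⟩ := h3
  refine ⟨u, v, hu, hv, fun w hw => ?_⟩
  by_contra hcon
  push Not at hcon
  obtain ⟨hw1, hw2, hw3, hw4⟩ := hcon
  have : Fintype U := Fintype.ofFinite U
  have huv : u * v ≠ 1 := by
    intro h
    apply hvu
    have h4 : u * (u * v) = u := by rw [h, mul_one]
    rwa [← mul_assoc, h2, one_mul] at h4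
  have huv1 : u * v ≠ u := by
    intro h
    exact hv1 (mul_eq_left.1 h)
  have huv2 : u * v ≠ v := by
    intro h
    exact hu1 (mul_eq_right.1 h)
  have hc : ({(⟨1, U.one_mem⟩ : U), ⟨u, hu⟩, ⟨v, hv⟩, ⟨u * v, U.mul_mem hu hv⟩, ⟨w, hw⟩} :
      Finset U).card = 5 := by
    rw [Finset.card_insert_of_notMem, Finset.card_insert_of_notMem,
      Finset.card_insert_of_notMem, Finset.card_insert_of_notMem, Finset.card_singleton]
    · simp only [Finset.mem_singleton, Subtype.mk.injEq]
      exact fun h => hw4 h.symm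
    · simp only [Finset.mem_insert, Finset.mem_singleton, Subtype.mk.injEq, not_or]
      exact ⟨fun h => huv2 h.symm, fun h => hw3 h.symm⟩
    · simp only [Finset.mem_insert, Finset.mem_singleton, Subtype.mk.injEq, not_or]
      exact ⟨fun h => hvu h.symm, fun h => huv1 h.symm, fun h => hw2 h.symm⟩
    · simp only [Finset.mem_insert, Finset.mem_singleton, Subtype.mk.injEq, not_or]
      exact ⟨fun h => hu1 h.symm, fun h => hv1 h.symm, fun h => huv h.symm, fun h => hw1 h.symm⟩
  have h5 := Finset.card_le_univ ({(⟨1, U.one_mem⟩ : U), ⟨u, hu⟩, ⟨v, hv⟩,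
    ⟨u * v, U.mul_mem hu hv⟩, ⟨w, hw⟩} : Finset U)
  rw [hc, ← Nat.card_eq_fintype_card] at h5
  omega

theorem small_of_three {S : QData} (hS : IsQuat S) (hfin : Finite S.G) (h : ThreeTerm S) :
    OrderEightSymbols.SmallSymbolsExtend S := by
  classical
  intro W hWc l f hl hf hχ
  obtain ⟨-, -, hχ0⟩ := hχ
  have hl1 : l 1 = 0 := by
    have := hl 1 1
    rw [one_mul] at this
    exact left_eq_add.mp this
  by_cases hl0 : ∀ w ∈ W, l w = 0
  · refine ⟨fun _ _ => 0, ⟨?_, ?_, ?_⟩, ?_⟩
    · intros; simp
    · intros; simp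
    · intros; rfl
    · intro w hw b
      rw [hl0 w hw, zero_mul]
  push Not at hl0
  obtain ⟨w0, hw0, hlw0⟩ := hl0
  have hlw1 : l w0 = 1 := by
    have : ∀ z : ZMod 2, z ≠ 0 → z = 1 := by decide
    exact this _ hlw0
  have hinv : ∀ x : S.G, x⁻¹ = x := fun x => inv_eq_of_mul_eq_one_left (hS.exp2 x)
  let U : Subgroup S.G :=
    { carrier := {w | w ∈ W ∧ l w = 0}
      one_mem' := ⟨W.one_mem, hl1⟩
      mul_mem' := by
        rintro x y ⟨h1, h2⟩ ⟨h3, h4⟩
        exact ⟨W.mul_mem h1 h3, by rw [hl, h2, h4, add_zero]⟩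
      inv_mem' := by
        rintro x ⟨h1, h2⟩
        rw [Set.mem_ofPred_eq, hinv]
        exact ⟨h1, h2⟩ }
  have hU4 : Nat.card U ≤ 4 := by
    have hinj : Function.Injective (fun z : U × Bool =>
        (⟨if z.2 then z.1.1 * w0 else z.1.1, by
          split_ifs
          · exact W.mul_mem z.1.2.1 hw0
          · exact z.1.2.1⟩ : W)) := by
      rintro ⟨⟨x, hx, hx'⟩, β⟩ ⟨⟨y, hy, hy'⟩, γ⟩ hxy
      have h1 : (if β then x * w0 else x) = (if γ then y * w0 else y) := congrArg Subtype.val hxy
      cases β <;> cases γ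
      · have h2 : x = y := by simpa using h1
        subst h2
        rfl
      · exfalso
        have h2 : x = y * w0 := by simpa using h1
        rw [h2, hl, hy', hlw1] at hx'
        exact absurd hx' (by decide)
      · exfalso
        have h2 : x * w0 = y := by simpa using h1
        rw [← h2, hl, hx', hlw1] at hy'
        exact absurd hy' (by decide)
      · have h2 : x = y := by simpa using h1
        subst h2
        rfl
    have h3 := Nat.card_le_card_of_injective _ hinj
    rw [Nat.card_prod, Nat.card_eq_fintype_card (α := Bool), Fintype.card_bool] at h3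
    omega
  obtain ⟨u, v, hu, hv, huv⟩ := two_gen U hS.exp2 hU4
  refine extend_core hS W l f hl hf hχ0 hw0 hlw1 2 (slots_of_three h) ![u, v] ?_ ?_
  · intro i
    fin_cases i
    · exact hu
    · exact hv
  · intro w hw hlw
    rcases huv w ⟨hw, hlw⟩ with rfl | rfl | rfl | rfl
    · exact ⟨∅, by simp⟩
    · exact ⟨{0}, by simp⟩
    · exact ⟨{1}, by simp⟩
    · exact ⟨{0, 1}, by rw [Finset.prod_pair (by decide)]; simp⟩

theorem three_of_elem {S : QData} (hS : IsQuat S) (hfin : Finite S.G) (h : Elem S) :
    ThreeTerm S := by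
  have hcrit := Pool.Agent.Results.MP_d26ff6_al.SymbolExtension.result S hS hfin
  exact three_of_slots (slots_of_relations hS (relations_of_extend hS (hcrit.1.1 h)) 2)

/-- **Theorem.** (1) The elementary type conjecture holds if and only if in all finite quaternionic
structures `{x,y} = {a,b} + {c,d}` implies `y ∈ V(x) V(xa) V(xc) V(xac)`. (2) For every `N`, all
quaternionic structures with `|G| ≤ N` are of elementary type if and only if they all have this
property. (3) A structure all of whose smaller ones are of elementary type is itself of elementary type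
if and only if it has this property. -/
theorem result :
    ((∀ S : QData, IsQuat S → Finite S.G → Elem S) ↔
      ∀ S : QData, IsQuat S → Finite S.G → ThreeTerm S) ∧
    (∀ N : ℕ, (∀ S : QData, IsQuat S → Finite S.G → Nat.card S.G ≤ N → Elem S) ↔
      ∀ S : QData, IsQuat S → Finite S.G → Nat.card S.G ≤ N → ThreeTerm S) ∧
    (∀ S : QData, IsQuat S → Finite S.G →
      (∀ T : QData, IsQuat T → Finite T.G → Nat.card T.G < Nat.card S.G → Elem T) →
      (Elem S ↔ ThreeTerm S)) := by
  obtain ⟨h1, h2, h3⟩ := Pool.Agent.Results.MP_d26ff6_al.OrderEightSymbols.result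
  refine ⟨⟨fun h S hS hf => three_of_elem hS hf (h S hS hf), fun h => h3.2 fun S hS hf =>
    small_of_three hS hf (h S hS hf)⟩, fun N => ⟨fun h S hS hf hN => three_of_elem hS hf
    (h S hS hf hN), fun h => (h2 N).2 fun S hS hf hN => small_of_three hS hf (h S hS hf hN)⟩,
    fun S hS hf hmin => ⟨three_of_elem hS hf, fun h => (h1 S hS hf hmin).2
    (small_of_three hS hf h)⟩⟩

end Pool.Agent.Results.MP_d26ff6_al.ThreeSymbols
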